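import Pool.Agent.Lib_helper72.KXb.Cp

/-!
# The curve with `b = -6/121`, `c = 6/11`: checks of the cubic step
-/

set_option autoImplicit false
set_option linter.unusedSectionVars false
set_option linter.unusedSimpArgs false
set_option linter.unusedVariables false

namespace Pool.Agent.KXb

open Polynomial WeierstrassCurve.Affine WithZero TN KX KC72 MK4
open Pool.Agent.K7 (orb6_orb)

lemma clsA_len : clsA.length = 155 := by decide +kernel

lemma chk1 : (List.range 5).all (fun i => eqM (shM T8 (cubT.getD i default).1 R0)
    (oo cls (155 + i, (cubT.getD i default).2)) && Nat.blt (cubT.getD i default).1 5) = true := by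
  decide +kernel

lemma chk2 : (List.range 5).all (fun j => (List.range 8).all (fun q =>
    Nat.blt ((qT.getD j []).getD q default).1 155 &&
    eqM (shM T8 j (pq.getD q default)) (oo cls ((qT.getD j []).getD q default)))) = true := by
  decide +kernel

end Pool.Agent.KXb
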