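import Pool.Agent.Lib_helper72.KXb.C
import Pool.Agent.Lib_helper72.KXb.ClD
import Pool.Agent.Lib_helper72.KX.Nx
import Pool.Agent.Lib_helper72.KC.P2

/-!
# The curve with `b = -6/121`, `c = 6/11`: data of the cubic step
-/

set_option autoImplicit false
set_option linter.unusedSectionVars false
set_option linter.unusedSimpArgs false
set_option linter.unusedVariables false

namespace Pool.Agent.KXb

open Polynomial WeierstrassCurve.Affine WithZero TN KX KC72 MK4
open Pool.Agent.K7 (orb6_orb)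

/-- the Moebius functions of `y / x` -/
noncomputable def pq : List Mo := [
  (false, [.ofNat 0, .ofNat 0, .ofNat 0, .ofNat 0, .ofNat 0, .negSucc 0, .ofNat 0, .ofNat 1, .ofNat 0, .ofNat 0, .negSucc 0, .ofNat 0]),
  (false, [.negSucc 0, .ofNat 0, .ofNat 0, .ofNat 0, .ofNat 0, .ofNat 0, .ofNat 0, .ofNat 0, .ofNat 1, .ofNat 1, .negSucc 1, .ofNat 1]),
  (true, [.ofNat 0, .ofNat 0, .ofNat 0, .ofNat 0, .ofNat 0, .ofNat 0, .negSucc 0, .ofNat 1, .ofNat 0, .negSucc 0, .ofNat 0, .ofNat 0]),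
  (false, [.ofNat 0, .ofNat 0, .ofNat 0, .ofNat 0, .ofNat 0, .ofNat 0, .negSucc 0, .ofNat 0, .ofNat 1, .ofNat 2, .ofNat 0, .ofNat 0]),
  (false, [.negSucc 0, .ofNat 0, .ofNat 0, .ofNat 0, .ofNat 0, .ofNat 0, .ofNat 0, .ofNat 1, .ofNat 0, .negSucc 0, .negSucc 1, .ofNat 1]),
  (false, [.ofNat 0, .ofNat 0, .ofNat 0, .ofNat 0, .ofNat 0, .negSucc 0, .ofNat 0, .ofNat 0, .ofNat 1, .ofNat 2, .negSucc 0, .ofNat 0]),
  (false, [.ofNat 0, .ofNat 0, .ofNat 0, .ofNat 0, .ofNat 0, .ofNat 0, .negSucc 0, .ofNat 0, .ofNat 1, .ofNat 2, .negSucc 0, .ofNat 0]),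
  (false, [.ofNat 0, .ofNat 0, .ofNat 0, .ofNat 0, .ofNat 0, .ofNat 0, .ofNat 0, .negSucc 0, .ofNat 1, .ofNat 0, .ofNat 0, .ofNat 0])]

/-- the function of degree three of `y / x` -/
noncomputable def R0 : Mo := (false, [.negSucc 0, .ofNat 0, .ofNat 0, .ofNat 0, .ofNat 0, .negSucc 1, .ofNat 0, .ofNat 2, .ofNat 1, .ofNat 1, .negSucc 3, .ofNat 1])

/-- positions of the translates of `pq` -/
noncomputable def qT : List (List (ℕ × ℕ)) := [
  [(120, 2), (34, 2), (120, 4), (121, 1), (37, 2), (121, 3), (122, 3), (33, 4)],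
  [(86, 5), (145, 0), (86, 0), (69, 0), (8, 3), (69, 5), (104, 5), (25, 4)],
  [(27, 2), (87, 5), (27, 4), (29, 1), (96, 2), (29, 3), (84, 5), (85, 0)],
  [(140, 3), (19, 4), (140, 1), (139, 1), (142, 5), (139, 3), (30, 3), (100, 2)],
  [(55, 5), (67, 1), (55, 0), (82, 3), (53, 5), (82, 1), (54, 1), (12, 2)]]

/-- positions of the classes of degree six -/
noncomputable def cubT : List (ℕ × ℕ) := [(2, 2), (4, 5), (1, 3), (0, 2), (3, 5)]

/-- the classes of degree two and four -/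
noncomputable def clsA : List (Mo × Mo) := cls.take 155

section

variable {k : Type*} [Field k] [CharZero k] {F : Type*} [Field F] [Algebra k F] {x y : F}

lemma mk0 : algebraMap k F (-12/11) = -12/11 := by simp [map_div₀, map_ofNat, map_neg]

lemma mk1 : algebraMap k F (3/22) = 3/22 := by simp [map_div₀, map_ofNat, map_neg]

lemma mk2 : algebraMap k F (0) = 0 := by simp [map_div₀, map_ofNat, map_neg]

lemma mk3 : algebraMap k F (6/11) = 6/11 := by simp [map_div₀, map_ofNat, map_neg]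

lemma mk4 : algebraMap k F (22/81) = 22/81 := by simp [map_div₀, map_ofNat, map_neg]

end

end Pool.Agent.KXb
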