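import Pool.Agent.Lib_helper72.KXb.Cp

/-!
# The curve with `b = -6/121`, `c = 6/11`: identities of the cubic step
-/

set_option autoImplicit false
set_option linter.unusedSectionVars false
set_option linter.unusedSimpArgs false
set_option linter.unusedVariables false

namespace Pool.Agent.KXb

open Polynomial WeierstrassCurve.Affine WithZero TN KX KC72 MK4
open Pool.Agent.K7 (orb6_orb)

section

variable {k : Type*} [Field k] [CharZero k] {F : Type*} [Field F] [Algebra k F] {x y : F}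

lemma sq0 (h : Gen (-6/121 : k) (6/11) x y) : SS (pt (y / x)) (pt (algebraMap k F (-12/11))) (pt (algebraMap k F (0))) (pt (algebraMap k F (6/11))) =
    sy (KC72.ev (List.ofFn (G8 x y)) (pq.getD 0 default)) := by
  have := cz (k := k) (F := F)
  have hx : x ≠ 0 := uF_ne h 0
  have n5 : y ≠ 0 := uF_ne h 5
  have n6 : y - 6/11 * x ≠ 0 := uF_ne h 6
  have n7 : y + 12/11 * x ≠ 0 := uF_ne h 7
  have n8 : y - 3/22 * x ≠ 0 := uF_ne h 8
  have m5 : y / x - 0 ≠ 0 := by rw [sub_zero]; exact div_ne_zero n5 hx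
  have m6 : y / x - (6/11) ≠ 0 := by
    have e : y / x - (6/11) = (y - 6/11 * x) / x := by field_simp; try ring
    rw [e]; exact div_ne_zero n6 hx
  have m7 : y / x - (-12/11) ≠ 0 := by
    have e : y / x - (-12/11) = (y + 12/11 * x) / x := by field_simp; try ring
    rw [e]; exact div_ne_zero n7 hx
  have m8 : y / x - (3/22) ≠ 0 := by
    have e : y / x - (3/22) = (y - 3/22 * x) / x := by field_simp; try ring
    rw [e]; exact div_ne_zero n8 hx
  show _ = sy (KC72.ev (List.ofFn (G8 x y)) (false, [.ofNat 0, .ofNat 0, .ofNat 0, .ofNat 0, .ofNat 0, .negSucc 0, .ofNat 0, .ofNat 1, .ofNat 0, .ofNat 0, .negSucc 0, .ofNat 0]))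
  unfold SS
  congr 1
  rw [ev_G8 (k := k)]
  unfold KC72.cr
  simp only [br_pt, br_pto, br_opt, mk0, mk1, mk2, mk3, mk4]
  simp [M8, Fin.prod_univ_succ, uF, zpow_ofNat, map_ofNat]
  rw [sub_zero] at m5
  field_simp
  ring

lemma sq1 (h : Gen (-6/121 : k) (6/11) x y) : SS (pt (y / x)) (pt (algebraMap k F (3/22))) (po F) (pt (algebraMap k F (6/11))) =
    sy (KC72.ev (List.ofFn (G8 x y)) (pq.getD 1 default)) := by
  have := cz (k := k) (F := F)
  have hx : x ≠ 0 := uF_ne h 0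
  have n5 : y ≠ 0 := uF_ne h 5
  have n6 : y - 6/11 * x ≠ 0 := uF_ne h 6
  have n7 : y + 12/11 * x ≠ 0 := uF_ne h 7
  have n8 : y - 3/22 * x ≠ 0 := uF_ne h 8
  have m5 : y / x - 0 ≠ 0 := by rw [sub_zero]; exact div_ne_zero n5 hx
  have m6 : y / x - (6/11) ≠ 0 := by
    have e : y / x - (6/11) = (y - 6/11 * x) / x := by field_simp; try ring
    rw [e]; exact div_ne_zero n6 hx
  have m7 : y / x - (-12/11) ≠ 0 := by
    have e : y / x - (-12/11) = (y + 12/11 * x) / x := by field_simp; try ring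
    rw [e]; exact div_ne_zero n7 hx
  have m8 : y / x - (3/22) ≠ 0 := by
    have e : y / x - (3/22) = (y - 3/22 * x) / x := by field_simp; try ring
    rw [e]; exact div_ne_zero n8 hx
  show _ = sy (KC72.ev (List.ofFn (G8 x y)) (false, [.negSucc 0, .ofNat 0, .ofNat 0, .ofNat 0, .ofNat 0, .ofNat 0, .ofNat 0, .ofNat 0, .ofNat 1, .ofNat 1, .negSucc 1, .ofNat 1]))
  unfold SS
  congr 1
  rw [ev_G8 (k := k)]
  unfold KC72.cr
  simp only [br_pt, br_pto, br_opt, mk0, mk1, mk2, mk3, mk4]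
  simp [M8, Fin.prod_univ_succ, uF, zpow_ofNat, map_ofNat]
  rw [sub_zero] at m5
  field_simp
  ring

lemma sq2 (h : Gen (-6/121 : k) (6/11) x y) : SS (pt (y / x)) (pt (algebraMap k F (-12/11))) (pt (algebraMap k F (6/11))) (pt (algebraMap k F (0))) =
    sy (KC72.ev (List.ofFn (G8 x y)) (pq.getD 2 default)) := by
  have := cz (k := k) (F := F)
  have hx : x ≠ 0 := uF_ne h 0
  have n5 : y ≠ 0 := uF_ne h 5
  have n6 : y - 6/11 * x ≠ 0 := uF_ne h 6
  have n7 : y + 12/11 * x ≠ 0 := uF_ne h 7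
  have n8 : y - 3/22 * x ≠ 0 := uF_ne h 8
  have m5 : y / x - 0 ≠ 0 := by rw [sub_zero]; exact div_ne_zero n5 hx
  have m6 : y / x - (6/11) ≠ 0 := by
    have e : y / x - (6/11) = (y - 6/11 * x) / x := by field_simp; try ring
    rw [e]; exact div_ne_zero n6 hx
  have m7 : y / x - (-12/11) ≠ 0 := by
    have e : y / x - (-12/11) = (y + 12/11 * x) / x := by field_simp; try ring
    rw [e]; exact div_ne_zero n7 hx
  have m8 : y / x - (3/22) ≠ 0 := by
    have e : y / x - (3/22) = (y - 3/22 * x) / x := by field_simp; try ring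
    rw [e]; exact div_ne_zero n8 hx
  show _ = sy (KC72.ev (List.ofFn (G8 x y)) (true, [.ofNat 0, .ofNat 0, .ofNat 0, .ofNat 0, .ofNat 0, .ofNat 0, .negSucc 0, .ofNat 1, .ofNat 0, .negSucc 0, .ofNat 0, .ofNat 0]))
  unfold SS
  congr 1
  rw [ev_G8 (k := k)]
  unfold KC72.cr
  simp only [br_pt, br_pto, br_opt, mk0, mk1, mk2, mk3, mk4]
  simp [M8, Fin.prod_univ_succ, uF, zpow_ofNat, map_ofNat]
  rw [sub_zero] at m5
  field_simp
  ring

lemma sq3 (h : Gen (-6/121 : k) (6/11) x y) : SS (pt (y / x)) (pt (algebraMap k F (3/22))) (pt (algebraMap k F (6/11))) (pt (algebraMap k F (0))) =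
    sy (KC72.ev (List.ofFn (G8 x y)) (pq.getD 3 default)) := by
  have := cz (k := k) (F := F)
  have hx : x ≠ 0 := uF_ne h 0
  have n5 : y ≠ 0 := uF_ne h 5
  have n6 : y - 6/11 * x ≠ 0 := uF_ne h 6
  have n7 : y + 12/11 * x ≠ 0 := uF_ne h 7
  have n8 : y - 3/22 * x ≠ 0 := uF_ne h 8
  have m5 : y / x - 0 ≠ 0 := by rw [sub_zero]; exact div_ne_zero n5 hx
  have m6 : y / x - (6/11) ≠ 0 := by
    have e : y / x - (6/11) = (y - 6/11 * x) / x := by field_simp; try ring
    rw [e]; exact div_ne_zero n6 hx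
  have m7 : y / x - (-12/11) ≠ 0 := by
    have e : y / x - (-12/11) = (y + 12/11 * x) / x := by field_simp; try ring
    rw [e]; exact div_ne_zero n7 hx
  have m8 : y / x - (3/22) ≠ 0 := by
    have e : y / x - (3/22) = (y - 3/22 * x) / x := by field_simp; try ring
    rw [e]; exact div_ne_zero n8 hx
  show _ = sy (KC72.ev (List.ofFn (G8 x y)) (false, [.ofNat 0, .ofNat 0, .ofNat 0, .ofNat 0, .ofNat 0, .ofNat 0, .negSucc 0, .ofNat 0, .ofNat 1, .ofNat 2, .ofNat 0, .ofNat 0]))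
  unfold SS
  congr 1
  rw [ev_G8 (k := k)]
  unfold KC72.cr
  simp only [br_pt, br_pto, br_opt, mk0, mk1, mk2, mk3, mk4]
  simp [M8, Fin.prod_univ_succ, uF, zpow_ofNat, map_ofNat]
  rw [sub_zero] at m5
  field_simp
  ring

lemma sq4 (h : Gen (-6/121 : k) (6/11) x y) : SS (pt (y / x)) (pt (algebraMap k F (-12/11))) (po F) (pt (algebraMap k F (6/11))) =
    sy (KC72.ev (List.ofFn (G8 x y)) (pq.getD 4 default)) := by
  have := cz (k := k) (F := F)
  have hx : x ≠ 0 := uF_ne h 0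
  have n5 : y ≠ 0 := uF_ne h 5
  have n6 : y - 6/11 * x ≠ 0 := uF_ne h 6
  have n7 : y + 12/11 * x ≠ 0 := uF_ne h 7
  have n8 : y - 3/22 * x ≠ 0 := uF_ne h 8
  have m5 : y / x - 0 ≠ 0 := by rw [sub_zero]; exact div_ne_zero n5 hx
  have m6 : y / x - (6/11) ≠ 0 := by
    have e : y / x - (6/11) = (y - 6/11 * x) / x := by field_simp; try ring
    rw [e]; exact div_ne_zero n6 hx
  have m7 : y / x - (-12/11) ≠ 0 := by
    have e : y / x - (-12/11) = (y + 12/11 * x) / x := by field_simp; try ring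
    rw [e]; exact div_ne_zero n7 hx
  have m8 : y / x - (3/22) ≠ 0 := by
    have e : y / x - (3/22) = (y - 3/22 * x) / x := by field_simp; try ring
    rw [e]; exact div_ne_zero n8 hx
  show _ = sy (KC72.ev (List.ofFn (G8 x y)) (false, [.negSucc 0, .ofNat 0, .ofNat 0, .ofNat 0, .ofNat 0, .ofNat 0, .ofNat 0, .ofNat 1, .ofNat 0, .negSucc 0, .negSucc 1, .ofNat 1]))
  unfold SS
  congr 1
  rw [ev_G8 (k := k)]
  unfold KC72.cr
  simp only [br_pt, br_pto, br_opt, mk0, mk1, mk2, mk3, mk4]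
  simp [M8, Fin.prod_univ_succ, uF, zpow_ofNat, map_ofNat]
  rw [sub_zero] at m5
  field_simp
  ring

end

end Pool.Agent.KXb
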