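import Pool.Agent.Lib_helper72.KX.Nf
import Pool.Agent.Lib_helper72.KXb.ClD
import Pool.Agent.Lib_helper72.KXb.C

/-!
# The curve with `b = -6/121`, `c = 6/11`: the classes under translation
-/

set_option autoImplicit false

namespace Pool.Agent.KXb

open KX KC72

/-- the packed generators at the next point -/
noncomputable def ptd : PT := ⟨512, 324518553658426726783156020576256, 4, 12, [
  1,
  512,
  262144,
  134217728,
  68719476736,
  35184372088832,
  18014398509481984,
  9223372036854775808,
  4722366482869645213696,
  2417851639229258349412352,
  1237940039285380274899124224,
  633825300114114700748351602688], [
  323252143416089422026376937996286,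
  323252143416089440040775447477758,
  323885968716212778078376281505790,
  323252145838672651075357281091582,
  323885961472093351969836440223742,
  321985733173752135248811992808957,
  322619558473875473321597198925309,
  322619560896449478998540687245309,
  322619553647616909779168055525373,
  2417851639229258349412352,
  1237940039285380274899124224,
  633825300114114700748351602688],
  [true, false, true, true, false, false, false, true, false, false, false, false]⟩

lemma ptO : ptd.Ok T8 where
  PB := by decide +kernel
  R := by decide +kernel
  S := by decide +kernel
  bT := by decide +kernel
  lT := by decide +kernel
  bN := by decide +kernel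
  b0 := by decide +kernel

lemma nx_ok : ∀ c < cls.length, nxC T8 cls nxt c = true := nx_of ptO (by decide +kernel)

lemma rk_ok : ∀ c < cls.length, rkC bp cls nxt rk c = true := rk_of cls_len (by decide +kernel)

end Pool.Agent.KXb
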