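import Pool.Agent.Lib_helper72.KXb.En0
import Pool.Agent.Lib_helper72.KXb.En1
import Pool.Agent.Lib_helper72.KXb.Bp
import Pool.Agent.Lib_helper72.KXb.Tx
import Pool.Agent.Lib_helper72.KX.Nx
import Pool.Agent.Lib_helper72.KX.Fs

/-!
# The curve with `b = -6/121`, `c = 6/11`: the unit equation
-/

set_option autoImplicit false
set_option linter.unusedSectionVars false
set_option linter.unusedSimpArgs false
set_option linter.unusedVariables false

namespace Pool.Agent.KXb

open Polynomial WeierstrassCurve.Affine WithZero TN KX KC72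
open Pool.Agent.K7 (LC LC_c orb6_orb Orb.compl' Orb.inv' rot)

section

variable {k : Type*} [Field k] [CharZero k] {F : Type*} [Field F] [Algebra k F] {x y : F}

lemma van_of {e e' : Fin 10 → ℤ} {s : Fin 10}
    (h : ∃ M : Fin 11, ordm M = 11 - OO e s ∧ ∀ m, M < m → RR k (NN fun i => e' (i + s)) m = 0) :
    (∃ M : Fin 11, ordm M = 11 - OO e s) ∧ VanAt dat.kap (OO e') s (OO e s) := by
  obtain ⟨M, hM, hv⟩ := h
  refine ⟨⟨M, hM⟩, fun m hm => ?_⟩
  have hlt : M < m := lt_ordm M m (by omega)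
  have h2 := hv m hlt
  unfold RR at h2
  rw [Finset.sum_apply] at h2
  simp only [Pi.smul_apply, smul_eq_mul, rr, ← mul_div_assoc] at h2
  rw [← Finset.sum_div, div_eq_zero_iff] at h2
  have h3 : ∑ j, (NN fun i => e' (i + s)) j * rrz j m = 0 := by
    rcases h2 with h2 | h2
    · have : ((∑ j, (NN fun i => e' (i + s)) j * rrz j m : ℤ) : k) = 0 := by
        push_cast
        exact h2
      exact_mod_cast this
    · exact absurd h2 (by norm_num)
  have h4 := kz_key kap_key m (fun i => e' (i + s))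
  rw [h3, mul_zero] at h4
  show ∑ c, kap m c * OO e' (c + s) = 0
  rw [h4]
  refine Finset.sum_congr rfl fun c _ => ?_
  rw [OO_shift]

/-- equal values at two points -/
lemma lvh {c v : k} (hc : c ≠ 0) {e : Fin 10 → ℤ} {s s' : Fin 10} (h : Lc k c e s = v)
    (h' : Lc k c e s' = v) : ∀ ν ∈ dat.nus, ex0 ν (OO e) s = ex0 ν (OO e) s' := by
  obtain ⟨q1, q2, q3⟩ := exp_eq3 (k := k) (p := 11) (by norm_num) (by norm_num)
    (P := 11) (by norm_num) sgn8 al be ga hc h h'
  have n1 := nz_at nu2_key e s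
  have n2 := nz_at nu2_key e s'
  have n3 := nz_at nu3_key e s
  have n4 := nz_at nu3_key e s'
  have n5 := nz_at nuP_key e s
  have n6 := nz_at nuP_key e s'
  intro ν hν
  have hν' : ν = nu2 ∨ ν = nu3 ∨ ν = nu11 := by
    have : ν ∈ [nu2, nu3, nu11] := hν
    simpa using this
  rcases hν' with rfl | rfl | rfl
  · linarith
  · linarith
  · linarith

lemma shp (h : Gen (-6/121 : k) (6/11) x y) {c₀ c₁ : k} (h0 : c₀ ≠ 0)
    (h1 : c₁ ≠ 0) {e e' : Fin 10 → ℤ}
    (hu : algebraMap k F c₀ * mon k x y e + algebraMap k F c₁ * mon k x y e' = 1)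
    (he' : ∃ s, OO e' s ≠ 0) : Shp dat (OO e) (OO e') := by
  have B := bound8 h h0 h1 hu
  have L : ∀ s, 1 ≤ OO e s → Lc k c₁ e' s = 1 := by
    intro s hs
    rcases B s with h | ⟨_, _, h, _⟩ | h | h
    · omega
    · exact h
    · omega
    · omega
  have L0 : ∀ s, 1 ≤ OO e' s → Lc k c₀ e s = 1 := by
    intro s hs
    rcases B s with h | h | ⟨_, _, h⟩ | h
    · omega
    · omega
    · exact h
    · omega
  have Lp : ∀ s, OO e s ≤ -1 → Lc k (c₀ * (-c₁)⁻¹) (fun i => e i - e' i) s = 1 := by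
    intro s hs
    have h2 : Lc k c₀ e s = - Lc k c₁ e' s := by
      rcases B s with h | h | h | ⟨_, _, h⟩
      · omega
      · omega
      · omega
      · exact h
    unfold Lc at h2 ⊢
    have n1 : ∏ i, lam k i ^ e' (i + s) ≠ 0 :=
      Finset.prod_ne_zero_iff.mpr fun i _ => zpow_ne_zero _ (lam_ne i)
    have h3 : ∏ i, lam k i ^ (e (i + s) - e' (i + s)) =
        (∏ i, lam k i ^ e (i + s)) / ∏ i, lam k i ^ e' (i + s) := by
      rw [← Finset.prod_div_distrib]
      exact Finset.prod_congr rfl fun i _ => zpow_sub₀ (lam_ne i) _ _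
    show c₀ * (-c₁)⁻¹ * ∏ i, lam k i ^ (e (i + s) - e' (i + s)) = 1
    have hc1 : -c₁ ≠ 0 := neg_ne_zero.mpr h1
    rw [h3, ← mul_div_assoc, div_eq_one_iff_eq n1, mul_assoc, mul_comm (-c₁)⁻¹, ← mul_assoc, h2]
    field_simp
  refine ⟨?_, sum_OO e, sum_OO e', ?_, ?_, ?_, ?_, ?_, ?_, he'⟩
  · intro s
    rcases B s with h | ⟨h, h', _⟩ | ⟨h, h', _⟩ | ⟨h, h', _⟩
    · exact Or.inl h
    · exact Or.inr (Or.inl ⟨h, h'⟩)
    · exact Or.inr (Or.inr (Or.inl ⟨h, h'⟩))
    · exact Or.inr (Or.inr (Or.inr ⟨h, h'⟩))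
  · rw [wt_OO]; omega
  · rw [wt_OO]; omega
  · intro s hs
    rcases B s with h | ⟨_, _, _, h⟩ | h | h
    · omega
    · exact van_of h
    · omega
    · omega
  · intro ν hν s s' hs hs'
    exact lvh h1 (L s hs) (L s' hs') ν hν
  · intro ν hν s s' hs hs'
    exact lvh h0 (L0 s hs) (L0 s' hs') ν hν
  · intro ν hν s s' hs hs'
    have h3 := lvh (mul_ne_zero h0 (inv_ne_zero (neg_ne_zero.mpr h1))) (Lp s hs) (Lp s' hs') ν hν
    have h4 : (OO fun i => e i - e' i) = fun c => OO e c - OO e' c := by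
      funext c
      unfold OO
      ring
    rw [h4] at h3
    exact h3

lemma okAll : ∀ i : Fin 18, OkC dat (confs.getD i.val []) := by
  intro i
  fin_cases i
  · exact okc0
  · exact okc1
  · exact okc2
  · exact okc3
  · exact okc4
  · exact okc5
  · exact okc6
  · exact okc7
  · exact okc8
  · exact okc9
  · exact okc10
  · exact okc11
  · exact okc12
  · exact okc13
  · exact okc14
  · exact okc15
  · exact okc16
  · exact okc17

lemma dat_look : dat.look = lookR cls := rfl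

/-- **the divisors are in the table** if `f` has at most three zeros -/
theorem t8_look (h : Gen (-6/121 : k) (6/11) x y) {c₀ c₁ : k} (h0 : c₀ ≠ 0)
    (h1 : c₁ ≠ 0) {e e' : Fin 10 → ℤ}
    (hu : algebraMap k F c₀ * mon k x y e + algebraMap k F c₁ * mon k x y e' = 1)
    (he' : ∃ s, OO e' s ≠ 0) {a b c : Fin 10} (ha : 1 ≤ OO e a) (hb : 1 ≤ OO e b)
    (hc : 1 ≤ OO e c) (hA : ∀ s, 1 ≤ OO e s → s = a ∨ s = b ∨ s = c) :
    ∃ j : ℕ, IsC cls (rot^[j] (tl (OO e))) (rot^[j] (tl (OO e'))) := by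
  obtain ⟨i, σ, hi⟩ := confs_norm a b c
  obtain ⟨x', y', h', hs⟩ := exists_shift h σ
  rw [mon_shift σ hs e, mon_shift σ hs e'] at hu
  have H := shp h' h0 h1 hu (by
    obtain ⟨s, hs⟩ := he'
    refine ⟨s - σ, ?_⟩
    rw [OO_shift, sub_add_cancel]
    exact hs)
  have kA : ∀ s, 1 ≤ OO (fun i => e (i + σ)) s ↔ s ∈ confs.getD i.val [] := by
    intro s
    rw [OO_shift]
    have h2 := hi (s + σ)
    rw [add_sub_cancel_right] at h2
    rw [← h2]
    constructor
    · exact hA _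
    · rintro (h3 | h3 | h3)
      · rw [h3]; exact ha
      · rw [h3]; exact hb
      · rw [h3]; exact hc
  have key := combC H (confs_nodup i).1 ((kA 0).mpr (confs_nodup i).2) kA (okAll i)
  rw [dat_look] at key
  have k2 := lk_spec (lookR cls) 10 key (-σ).val (-σ).isLt
  rw [rot_iter, rot_iter, val_smul] at k2
  have k3 : ∀ e : Fin 10 → ℤ, (fun i => OO (fun i => e (i + σ)) (i + -σ)) = OO e := by
    intro e
    funext i
    rw [OO_shift, neg_add_cancel_right]
  rw [k3, k3] at k2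
  exact lookR_spec k2

/-! ### constants -/

lemma M8_ne (h : Gen (-6/121 : k) (6/11) x y) (n : Fin 9 → ℤ) : M8 x y n ≠ 0 :=
  Finset.prod_ne_zero_iff.mpr fun j _ => zpow_ne_zero _ (uF_ne h j)

lemma M8_sub (h : Gen (-6/121 : k) (6/11) x y) (n n' : Fin 9 → ℤ) :
    M8 x y (n - n') = M8 x y n / M8 x y n' := by
  unfold M8
  rw [← Finset.prod_div_distrib]
  exact Finset.prod_congr rfl fun j _ => by rw [Pi.sub_apply, zpow_sub₀ (uF_ne h j)]

lemma plam (e : Fin 10 → ℤ) : (∏ i, lam k i ^ e i) ≠ 0 :=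
  Finset.prod_ne_zero_iff.mpr fun i _ => zpow_ne_zero _ (lam_ne i)

lemma M8_eq (h : Gen (-6/121 : k) (6/11) x y) (n : Fin 9 → ℤ) :
    M8 x y n = algebraMap k F (∏ i, lam k i ^ SE n i)⁻¹ * mon k x y (SE n) := by
  rw [mon_eq h, NN_SE, ← mul_assoc, ← map_mul, inv_mul_cancel₀ (plam _), map_one, one_mul]

/-- the orders of a constant vanish -/
lemma OO_const (h : Gen (-6/121 : k) (6/11) x y)
    {e : Fin 10 → ℤ} {s : k} (hs : mon k x y e = algebraMap k F s) (σ : Fin 10) : OO e σ = 0 := by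
  obtain ⟨x', y', h', hx⟩ := exists_shift h σ
  rw [mon_shift σ hx e, mon_eq h', ← io_mo h', ← io_c h', ← io_c h', ← map_mul] at hs
  have e2 := io_inj h' hs
  set e' : Fin 10 → ℤ := fun i => e (i + σ) with he'
  have l1 := (LC_c (W := W8 k) (plam (k := k) e')).mul (LC_mo k (NN e'))
  have s0 : s ≠ 0 := by
    rintro rfl
    rw [map_zero] at e2
    exact l1.ne e2
  have v1 := l1.v_eq
  rw [e2, (LC_c (W := W8 k) s0).v_eq] at v1
  have v2 := exp_injective v1
  rw [Dn_NN] at v2
  have v3 := OO_shift e σ (-0)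
  rw [neg_zero, zero_add] at v3
  rw [← v3, ← he']
  rw [neg_zero] at v2
  omega

/-- a monomial is constant only if its exponents vanish -/
lemma M8_const (h : Gen (-6/121 : k) (6/11) x y)
    {n : Fin 9 → ℤ} {s : k} (hs : M8 x y n = algebraMap k F s) : n = 0 := by
  have h1 : mon k x y (SE n) = algebraMap k F ((∏ i, lam k i ^ SE n i) * s) := by
    rw [map_mul, ← hs, M8_eq h, ← mul_assoc, ← map_mul, mul_inv_cancel₀ (plam _), map_one,
      one_mul]
  have h2 := OO_const h h1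
  have h3 : NN (SE n) = 0 := Dn_inj fun i => by
    rw [Dn_NN, h2]
    simp [Dn]
  rwa [NN_SE] at h3

lemma mon_const (h : Gen (-6/121 : k) (6/11) x y) {e : Fin 10 → ℤ} (he : ∀ s, OO e s = 0) :
    mon k x y e = algebraMap k F (∏ i, lam k i ^ e i) := by
  have h3 : NN e = 0 := Dn_inj fun i => by
    rw [Dn_NN, he]
    simp [Dn]
  rw [mon_eq h, h3]
  simp [M8]

/-- the coefficients are determined by the exponents -/
lemma M8_uniq (h : Gen (-6/121 : k) (6/11) x y)
    {n n' : Fin 9 → ℤ} (hn : n ≠ 0) {a a' b b' : k}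
    (h1 : algebraMap k F a * M8 x y n + algebraMap k F a' * M8 x y n' = 1)
    (h2 : algebraMap k F b * M8 x y n + algebraMap k F b' * M8 x y n' = 1) : a = b := by
  have m1 := M8_ne h n
  have m2 := M8_ne h n'
  by_contra hab
  have hab' : a - b ≠ 0 := sub_ne_zero.mpr hab
  have hk : algebraMap k F (a - b) ≠ 0 := (_root_.map_ne_zero _).mpr hab'
  have e1 : algebraMap k F (a - b) * M8 x y n = algebraMap k F (b' - a') * M8 x y n' := by
    rw [map_sub, map_sub]
    linear_combination h1 - h2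
  have e2 : M8 x y (n - n') = algebraMap k F ((b' - a') / (a - b)) := by
    rw [M8_sub h, map_div₀, div_eq_div_iff m2 hk, mul_comm, e1]
  have e3 := M8_const h e2
  have e4 : n = n' := sub_eq_zero.mp e3
  subst e4
  rw [← add_mul, ← map_add] at h1
  have e5 : a + a' ≠ 0 := by
    intro h'
    rw [h', map_zero, zero_mul] at h1
    exact zero_ne_one h1
  apply hn
  apply M8_const h (s := (a + a')⁻¹)
  rw [map_inv₀]
  exact eq_inv_of_mul_eq_one_right h1

/-! ### the classes are solutions -/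

/-- the next point -/
def nxP (a : F × F) : F × F := (nx a.1 a.2, ny a.1 a.2)

/-- **the classes are solutions** -/
theorem sols8 (h : Gen (-6/121 : k) (6/11) x y) : Sols (List.ofFn (G8 x y)) cls :=
  sols_of (G := fun a : F × F => Gen (-6/121 : k) (6/11) a.1 a.2)
    (g := fun a => List.ofFn (G8 a.1 a.2)) (nx := nxP) (T := T8)
    (fun a ha => Gen.next' ha) (fun a ha => G8l_ne ha) (fun a ha => G8_next ha) nx_ok rk_ok
    (fun a ha r hr => bp_sol ha r (by rw [bp_len] at hr; exact hr)) (x, y) h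

lemma shN (h : Gen (-6/121 : k) (6/11) x y) (j : ℕ) :
    Gen (-6/121 : k) (6/11) (nxP^[j] (x, y)).1 (nxP^[j] (x, y)).2 ∧
    ∀ i, XF k (nxP^[j] (x, y)).1 (nxP^[j] (x, y)).2 i = XF k x y (i + j • 1) := by
  induction j with
  | zero => exact ⟨h, fun i => by simp⟩
  | succ j ih =>
    rw [Function.iterate_succ_apply']
    refine ⟨Gen.next' ih.1, fun i => ?_⟩
    show XF k (nx _ _) (ny _ _) i = _
    rw [XF_next ih.1, ih.2]
    congr 1
    rw [succ_nsmul]
    abel

/-- identification -/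
theorem t8_id0 (h : Gen (-6/121 : k) (6/11) x y)
    (HS : Sols (List.ofFn (G8 x y)) cls) {c₀ c₁ : k} {e e' : Fin 10 → ℤ}
    (hu : algebraMap k F c₀ * mon k x y e + algebraMap k F c₁ * mon k x y e' = 1)
    (he : ∃ s, OO e s ≠ 0) (hl : IsC cls (tl (OO e)) (tl (OO e'))) :
    ∃ p ∈ cls, Orb (KC72.ev (List.ofFn (G8 x y)) p.1)
      (algebraMap k F c₀ * mon k x y e) := by
  obtain ⟨p, hp, hp', q1, q2⟩ := hl
  have hg := G8l_ne h
  have r1 := NN_of q1
  have r2 := NN_of q2
  have v1 : KC72.ev (List.ofFn (G8 x y)) (oo cls p) = algebraMap k F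
      ((bif (oo cls p).1 then -1 else 1) * 2 ^ ((oo cls p).2.getD 9 0) *
        3 ^ ((oo cls p).2.getD 10 0) * 11 ^ ((oo cls p).2.getD 11 0)) * M8 x y (NN e) := by rw [← r1]; exact ev_G8 _ _
  have v2 : KC72.ev (List.ofFn (G8 x y)) (co cls p) = algebraMap k F
      ((bif (co cls p).1 then -1 else 1) * 2 ^ ((co cls p).2.getD 9 0) *
        3 ^ ((co cls p).2.getD 10 0) * 11 ^ ((co cls p).2.getD 11 0)) * M8 x y (NN e') := by rw [← r2]; exact ev_G8 _ _
  have v3 := oo_co hg HS hp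
  rw [v1, v2] at v3
  rw [mon_eq h, mon_eq h, ← mul_assoc, ← mul_assoc, ← map_mul, ← map_mul] at hu
  have hn : NN e ≠ 0 := by
    intro h'
    obtain ⟨s, hs⟩ := he
    apply hs
    have := Dn_NN e (-s)
    rw [neg_neg] at this
    rw [← this, h']
    simp [Dn]
  have v4 := M8_uniq h hn v3 hu
  refine ⟨cls.getD p.1 default, ?_, ?_⟩
  · rw [List.getD_eq_getElem _ _ hp]
    exact List.getElem_mem hp
  · have v5 := orb6_orb hg (HS.getD hp) p.2
    have v6 : algebraMap k F c₀ * mon k x y e =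
        KC72.ev (List.ofFn (G8 x y)) (oo cls p) := by
      rw [v1, v4, mon_eq h, ← mul_assoc, ← map_mul]
    rw [v6]
    exact v5

/-- **identification** -/
theorem t8_id (h : Gen (-6/121 : k) (6/11) x y)
    (HS : Sols (List.ofFn (G8 x y)) cls) {c₀ c₁ : k} {e e' : Fin 10 → ℤ}
    (hu : algebraMap k F c₀ * mon k x y e + algebraMap k F c₁ * mon k x y e' = 1)
    (he : ∃ s, OO e s ≠ 0)
    (hl : ∃ j : ℕ, IsC cls (rot^[j] (tl (OO e))) (rot^[j] (tl (OO e')))) :
    ∃ p ∈ cls, Orb (KC72.ev (List.ofFn (G8 x y)) p.1)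
      (algebraMap k F c₀ * mon k x y e) := by
  obtain ⟨j, hj⟩ := hl
  rw [rot_iter, rot_iter] at hj
  obtain ⟨h', hs⟩ := shN h j
  have o : ∀ e : Fin 10 → ℤ, (fun i => OO e (i + j • 1)) = OO (fun i => e (i + j • 1)) :=
    fun e => funext fun i => (OO_shift e (j • 1) i).symm
  rw [o, o] at hj
  rw [mon_shift (j • 1) hs e, mon_shift (j • 1) hs e'] at hu
  rw [mon_shift (j • 1) hs e]
  obtain ⟨p, hp, h1⟩ := t8_id0 h' (sols8 h') hu (by
    obtain ⟨s, hs⟩ := he
    refine ⟨s - j • 1, ?_⟩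
    rw [OO_shift, sub_add_cancel]
    exact hs) hj
  obtain ⟨p', hp', h2⟩ := orb_shift (G := fun a : F × F => Gen (-6/121 : k) (6/11) a.1 a.2)
    (g := fun a => List.ofFn (G8 a.1 a.2)) (nx := nxP) (T := T8)
    (fun a ha => Gen.next' ha) (fun a ha => G8l_ne ha) (fun a ha => G8_next ha) nx_ok
    (fun a ha => sols8 ha) j (x, y) h p hp
  obtain ⟨n0, n1⟩ := ne_of_sols (g := fun a : F × F => List.ofFn (G8 a.1 a.2)) (a := (x, y))
    (G8l_ne h) HS hp'
  exact ⟨p', hp', Orb.trans' n0 n1 h2 h1⟩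

lemma mon_neg (h : Gen (-6/121 : k) (6/11) x y) (e : Fin 10 → ℤ) :
    mon k x y (fun i => - e i) = (mon k x y e)⁻¹ := by
  unfold mon
  rw [← Finset.prod_inv_distrib]
  exact Finset.prod_congr rfl fun i _ => zpow_neg _ _

lemma mon_sub (h : Gen (-6/121 : k) (6/11) x y) (e e' : Fin 10 → ℤ) :
    mon k x y (fun i => e' i - e i) = mon k x y e' / mon k x y e := by
  unfold mon
  rw [← Finset.prod_div_distrib]
  exact Finset.prod_congr rfl fun i _ => zpow_sub₀ (XF_ne h i) _ _

lemma mon_ne (h : Gen (-6/121 : k) (6/11) x y) (e : Fin 10 → ℤ) : mon k x y e ≠ 0 :=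
  Finset.prod_ne_zero_iff.mpr fun i _ => zpow_ne_zero _ (XF_ne h i)

/-- **the unit equation** -/
theorem unit8 (h : Gen (-6/121 : k) (6/11) x y)
    (HS : Sols (List.ofFn (G8 x y)) cls) {c₀ c₁ : k} (h0 : c₀ ≠ 0) (h1 : c₁ ≠ 0)
    {e e' : Fin 10 → ℤ}
    (hu : algebraMap k F c₀ * mon k x y e + algebraMap k F c₁ * mon k x y e' = 1) :
    (∃ s : k, algebraMap k F c₀ * mon k x y e = algebraMap k F s) ∨
    ∃ p ∈ cls, Orb (KC72.ev (List.ofFn (G8 x y)) p.1) (algebraMap k F c₀ * mon k x y e) := by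
  have n0 : algebraMap k F c₀ ≠ 0 := (_root_.map_ne_zero _).mpr h0
  have hg := G8l_ne h
  have m0 := mon_ne h e
  by_cases he : ∃ s, OO e s ≠ 0
  · by_cases he' : ∃ s, OO e' s ≠ 0
    · right
      have B := (shp h h0 h1 hu he').alt
      have ne : ∀ p ∈ cls, KC72.ev (List.ofFn (G8 x y)) p.1 ≠ 0 ∧
          KC72.ev (List.ofFn (G8 x y)) p.1 ≠ 1 := by
        intro p hp
        refine ⟨ev_ne hg _, fun h2 => ?_⟩
        have h3 := HS p hp
        rw [h2] at h3
        exact ev_ne hg p.2 (by linear_combination h3)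
      obtain ⟨a, b, c, ha, hb, hc, hab⟩ | ⟨a, b, c, ha, hb, hc, hab⟩ | ⟨a, b, c, ha, hb, hc, hab⟩ :=
        small3 (fun s => 1 ≤ OO e s) (fun s => 1 ≤ OO e' s) (fun s => OO e s ≤ -1)
          (ex_pos (sum_OO e) he) (ex_pos (sum_OO e') he') (ex_neg (sum_OO e) he)
          (fun s hs => by have := B s; have := hs.1; have := hs.2; omega)
          (fun s hs => by have := hs.1; have := hs.2; omega)
          (fun s hs => by have := B s; have := hs.1; have := hs.2; omega)
      · exact t8_id h HS hu he (t8_look h h0 h1 hu he' ha hb hc hab)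
      · have hu' : algebraMap k F c₁ * mon k x y e' +
            algebraMap k F c₀ * mon k x y e = 1 := by rw [add_comm]; exact hu
        obtain ⟨p, hp, h2⟩ := t8_id h HS hu' he' (t8_look h h1 h0 hu' he ha hb hc hab)
        refine ⟨p, hp, ?_⟩
        have h3 := Orb.compl' (ne p hp).1 (ne p hp).2 h2
        have h4 : algebraMap k F c₀ * mon k x y e =
            1 - algebraMap k F c₁ * mon k x y e' := by linear_combination hu
        rw [h4]
        exact h3
      · have hu' : algebraMap k F c₀⁻¹ * mon k x y (fun i => - e i) +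
            algebraMap k F (-(c₁ * c₀⁻¹)) * mon k x y (fun i => e' i - e i) = 1 := by
          rw [mon_neg h, mon_sub h, map_neg, map_mul, map_inv₀]
          field_simp
          linear_combination -hu
        have o1 : ∀ s, OO (fun i => - e i) s = - OO e s := by
          intro s; unfold OO; ring
        have o2 : ∀ s, OO (fun i => e' i - e i) s = OO e' s - OO e s := by
          intro s; unfold OO; ring
        have q1 : ∃ s, OO (fun i => - e i) s ≠ 0 := by
          obtain ⟨s, hs⟩ := he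
          exact ⟨s, by rw [o1]; exact neg_ne_zero.mpr hs⟩
        have q2 : ∃ s, OO (fun i => e' i - e i) s ≠ 0 := by
          obtain ⟨s, hs⟩ := ex_pos (sum_OO e) he
          refine ⟨s, ?_⟩
          rw [o2]
          have := B s
          omega
        obtain ⟨p, hp, h2⟩ := t8_id h HS hu' q1 (t8_look h (inv_ne_zero h0)
          (neg_ne_zero.mpr (mul_ne_zero h1 (inv_ne_zero h0))) hu' q2 (a := a) (b := b) (c := c)
          (by rw [o1]; omega) (by rw [o1]; omega) (by rw [o1]; omega) (fun s hs => hab s (by rw [o1] at hs; omega)))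
        refine ⟨p, hp, ?_⟩
        have h3 := Orb.inv' (ne p hp).1 (ne p hp).2 h2
        rw [mon_neg h, map_inv₀, ← mul_inv, inv_inv] at h3
        exact h3
    · left
      push Not at he'
      rw [mon_const h he'] at hu
      refine ⟨1 - c₁ * ∏ i, lam k i ^ e' i, ?_⟩
      rw [map_sub, map_one, map_mul]
      linear_combination hu
  · left
    push Not at he
    rw [mon_const h he]
    exact ⟨c₀ * ∏ i, lam k i ^ e i, by rw [map_mul]⟩

variable (k x y) in
/-- units -/
def U8 (f : F) : Prop := ∃ (d : k) (n : Fin 9 → ℤ), d ≠ 0 ∧ f = algebraMap k F d * M8 x y n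

/-- **the unit equation**, for units -/
theorem unit8' (h : Gen (-6/121 : k) (6/11) x y) {f : F} (hf : U8 k x y f) (hf1 : U8 k x y (1 - f)) :
    (∃ c : k, f = algebraMap k F c) ∨
    ∃ p ∈ cls, Orb (KC72.ev (List.ofFn (G8 x y)) p.1) f := by
  obtain ⟨d, n, hd, rfl⟩ := hf
  obtain ⟨d', n', hd', h2⟩ := hf1
  have l0 : ∀ n : Fin 9 → ℤ, (∏ i, lam k i ^ SE n i)⁻¹ ≠ 0 := fun n => inv_ne_zero (plam _)
  have key := unit8 h (sols8 h) (mul_ne_zero hd (l0 n)) (mul_ne_zero hd' (l0 n'))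
    (e := SE n) (e' := SE n')
  rw [map_mul, map_mul, mul_assoc, mul_assoc, ← M8_eq h, ← M8_eq h] at key
  exact key (by rw [← h2]; ring)

/-! ### the hypotheses of the certificate theorem -/

lemma G8_const (i : Fin 12) (hi : 9 ≤ i.val) : ∃ c : k, G8 x y i = algebraMap k F c := by
  fin_cases i <;> simp at hi
  · exact ⟨2, (map_ofNat _ _).symm⟩
  · exact ⟨3, (map_ofNat _ _).symm⟩
  · exact ⟨11, (map_ofNat _ _).symm⟩

lemma G8_hM (h : Gen (-6/121 : k) (6/11) x y) (e : Fin 9 → ℤ) (c : k) (hc : c ≠ 0)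
    (he : ∏ i, G8 x y (Fin.castLE (by norm_num : 9 ≤ 12) i) ^ e i = algebraMap k F c) : e = 0 := by
  apply M8_const h (n := e) (s := c)
  rw [← he]
  unfold M8
  refine Finset.prod_congr rfl fun j _ => ?_
  fin_cases j <;> rfl

lemma G8_hc (h : Gen (-6/121 : k) (6/11) x y) (e : Fin 12 → ℤ) (he : ∀ i : Fin 12, i.val < 9 → e i = 0)
    (hp : ∏ i, G8 x y i ^ e i = 1) : e = 0 := by
  rw [Fin.prod_univ_castSucc, Fin.prod_univ_castSucc, Fin.prod_univ_castSucc] at hp
  have e0 : ∏ i : Fin 9, G8 x y (Fin.castSucc (Fin.castSucc (Fin.castSucc i))) ^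
      e (Fin.castSucc (Fin.castSucc (Fin.castSucc i))) = 1 :=
    Finset.prod_eq_one fun i _ => by
      rw [he (Fin.castSucc (Fin.castSucc (Fin.castSucc i))) i.isLt, zpow_zero]
  have h7 : G8 x y (Fin.castSucc (Fin.castSucc (Fin.last 9))) = algebraMap k F 2 :=
    (map_ofNat _ _).symm
  have h8 : G8 x y (Fin.castSucc (Fin.last 10)) = algebraMap k F 3 := (map_ofNat _ _).symm
  have h9 : G8 x y (Fin.last 11) = algebraMap k F 11 := (map_ofNat _ _).symm
  rw [e0, one_mul, h7, h8, h9, ← map_zpow₀, ← map_zpow₀, ← map_zpow₀, ← map_mul, ← map_mul] at hp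
  obtain ⟨e7, e8, e9⟩ := three_p (k := k) (p := 11) (by norm_num) (by norm_num) (P := 11)
    (by norm_num) ((algebraMap k F).injective (hp.trans (map_one _).symm))
  funext i
  by_cases hi : i.val < 9
  · exact he i hi
  · have h9 : i = Fin.castSucc (Fin.castSucc (Fin.last 9)) ∨ i = Fin.castSucc (Fin.last 10) ∨
        i = Fin.last 11 := by
      have := i.isLt
      rcases (show i.val = 9 ∨ i.val = 10 ∨ i.val = 11 by omega) with h | h | h
      · exact Or.inl (Fin.ext h)
      · exact Or.inr (Or.inl (Fin.ext h))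
      · exact Or.inr (Or.inr (Fin.ext h))
    rcases h9 with rfl | rfl | rfl
    · exact e7
    · exact e8
    · exact e9

end

end Pool.Agent.KXb
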